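import Pool.Agent.Helper62.UB.Rand
import Pool.Agent.Helper66.UB.Dcl
import Pool.Agent.Helper66.UB.Comps
import Pool.Agent.Helper79.UB.Cover
import Pool.Agent.Helper28.UB.Seeds

/-!
# Project UB, module C7: assembly of the cluster part
-/

set_option autoImplicit false

namespace Pool.Agent.Helper65.CG

open scoped Classical
open Pool.Agent.Helper65.CliqueGame

variable {n q m : ℕ}

theorem cluster {ℓ : Sym2 (Fin n) → ℕ} (hm : 1 ≤ m) (hℓ : Lab m ℓ)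
    {vt : ℕ → Fin (2 * m) → Fin n} (hvt : Enum m ℓ vt) {Z : Fin q → Fin n}
    (hZ : Function.Injective Z) {F : Finset (Fin q)} {s₀ τ₀ d μ K : ℕ} {ε : ℝ}
    (hε : 0 < ε) (hε1 : ε < 1) (hμ : (1 - ε ^ 2) ^ μ ≤ 1 / 8) (hK : 2 * μ < K) (hd : 1 ≤ d)
    (hT : Tame ℓ Z F s₀ τ₀) (hs : 4 * ε * q + q / d ≤ s₀) :
    ∃ D : Clu q m, (D.S.card : ℝ) ≤ 4 * ε * q ∧ D.G ⊆ F ∧
      ((F \ D.G).card : ℝ) ≤ 3 * τ₀ + 8 * μ * (1 - ε) ^ K * q ∧ D.h.card ≤ 2 * μ * q ∧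
      CluOK ℓ vt Z D d (2 * μ * K * q) := by
  have hq0 : (0 : ℝ) ≤ (q : ℝ) / d := by positivity
  have hM := matched_card_of (fun F T M _ _ h1 h2 h3 h4 => rand_match F T M h1 h2 h3 h4)
    hε hε1 hμ hT (by linarith)
  obtain ⟨S, hSF, G₁, hG₁, hScard, hrest, hseed⟩ :=
    seeds hℓ (Z := Z) (F := F) (μ := μ) (K := K) hK hε hε1
  have hG₁F : G₁ ⊆ F := fun i hi => (Finset.mem_sdiff.1 (hG₁ hi)).1
  have hG₁M : ∀ i ∈ G₁, i ∉ Mt ℓ Z F μ := fun i hi => (Finset.mem_sdiff.1 (hG₁ hi)).2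
  obtain ⟨cls, hcls, hlarge⟩ := comps hℓ (Z := Z) (K := K) hd hT hG₁F (by linarith) hseed
  -- the entries
  have hent : ∀ p : Fin q × Fin q, ∃ y : Fin q × Fin (2 * m),
      (p.1 ∈ G₁ ∧ p.2 ∈ G₁ ∧ Str ℓ Z F K p.1 p.2) →
        y.1 ∈ S ∧ Z p.2 = vt (lk ℓ Z p.1 y.1) y.2 := by
    intro p
    by_cases hp : p.1 ∈ G₁ ∧ p.2 ∈ G₁ ∧ Str ℓ Z F K p.1 p.2
    · obtain ⟨h, hhS, hh⟩ := hseed p.1 hp.1 p.2 hp.2.1 hp.2.2
      obtain ⟨-, -, -, h2, h', -, h3⟩ := Finset.mem_filter.1 hh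
      obtain ⟨t, ht⟩ := hvt (lk ℓ Z p.1 h) (Z p.2) h2 ⟨s(Z p.2, Z h'), h3, Sym2.mem_mk_left _ _⟩
      exact ⟨(h, t), fun _ => ⟨hhS, ht.symm⟩⟩
    · exact ⟨(p.1, ⟨0, by omega⟩), fun h => absurd h hp⟩
  choose y hy using hent
  let PP : Finset (Fin q × Fin q) :=
    (G₁ ×ˢ G₁).filter fun p => Str ℓ Z F K p.1 p.2
  have hPP : ∀ p, p ∈ PP ↔ (p.1 ∈ G₁ ∧ p.2 ∈ G₁ ∧ Str ℓ Z F K p.1 p.2) := by
    intro p
    simp only [PP, Finset.mem_filter, Finset.mem_product]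
    tauto
  have hPPcard : PP.card ≤ 2 * μ * q := by
    have h1 : PP ⊆ G₁.biUnion fun i =>
        (F.filter (fun k => Str ℓ Z F K i k)).image fun k => (i, k) := by
      intro p hp
      obtain ⟨h1, h2, h3⟩ := (hPP p).1 hp
      refine Finset.mem_biUnion.2 ⟨p.1, h1, Finset.mem_image.2 ⟨p.2, ?_, rfl⟩⟩
      exact Finset.mem_filter.2 ⟨hG₁F h2, h3⟩
    calc PP.card ≤ _ := Finset.card_le_card h1
      _ ≤ ∑ i ∈ G₁, ((F.filter (fun k => Str ℓ Z F K i k)).image fun k => (i, k)).card :=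
          Finset.card_biUnion_le
      _ ≤ ∑ i ∈ G₁, 2 * μ := by
          refine Finset.sum_le_sum fun i hi => Finset.card_image_le.trans ?_
          exact strong_deg hℓ hK (hG₁F hi) (hG₁M i hi)
      _ = G₁.card * (2 * μ) := by rw [Finset.sum_const, smul_eq_mul]
      _ ≤ q * (2 * μ) := by
          refine Nat.mul_le_mul_right _ ?_
          simpa using Finset.card_le_univ G₁
      _ = 2 * μ * q := by ring
  let G : Finset (Fin q) := G₁.filter fun i => (G₁.filter (fun k => cls k = cls i)).card ≤ d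
  have hGG₁ : G ⊆ G₁ := Finset.filter_subset _ _
  let D : Clu q m := ⟨S, G, PP.image fun p => (p, y p), cls⟩
  refine ⟨D, hScard, hGG₁.trans hG₁F, ?_, ?_, ?_, ?_, ?_, ?_⟩
  · have h1 : F \ G ⊆ (Mt ℓ Z F μ ∪ ((F \ Mt ℓ Z F μ) \ G₁)) ∪
        G₁.filter (fun i => d < (G₁.filter (fun k => cls k = cls i)).card) := by
      intro i hi
      obtain ⟨hi1, hi2⟩ := Finset.mem_sdiff.1 hi
      by_cases h2 : i ∈ Mt ℓ Z F μ
      · exact Finset.mem_union_left _ (Finset.mem_union_left _ h2)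
      · by_cases h3 : i ∈ G₁
        · refine Finset.mem_union_right _ (Finset.mem_filter.2 ⟨h3, ?_⟩)
          by_contra h4
          exact hi2 (Finset.mem_filter.2 ⟨h3, not_lt.1 h4⟩)
        · exact Finset.mem_union_left _ (Finset.mem_union_right _
            (Finset.mem_sdiff.2 ⟨Finset.mem_sdiff.2 ⟨hi1, h2⟩, h3⟩))
    have h2 : (F \ G).card ≤ (Mt ℓ Z F μ).card + ((F \ Mt ℓ Z F μ) \ G₁).card +
        (G₁.filter (fun i => d < (G₁.filter (fun k => cls k = cls i)).card)).card :=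
      (Finset.card_le_card h1).trans ((Finset.card_union_le _ _).trans
        (Nat.add_le_add_right (Finset.card_union_le _ _) _))
    have h3 : ((F \ G).card : ℝ) ≤ (Mt ℓ Z F μ).card + ((F \ Mt ℓ Z F μ) \ G₁).card +
        (G₁.filter (fun i => d < (G₁.filter (fun k => cls k = cls i)).card)).card := by
      exact_mod_cast h2
    have h4 : ((Mt ℓ Z F μ).card : ℝ) ≤ 2 * τ₀ := by exact_mod_cast hM
    have h5 : ((G₁.filter (fun i => d < (G₁.filter (fun k => cls k = cls i)).card)).card : ℝ) ≤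
        τ₀ := by exact_mod_cast hlarge
    change ((F \ G).card : ℝ) ≤ _
    linarith
  · exact Finset.card_image_le.trans hPPcard
  · intro x hx
    obtain ⟨p, hp, rfl⟩ := Finset.mem_image.1 hx
    exact hy p ((hPP p).1 hp)
  · intro i hi k hk hik
    have h1 := (hcls i (hGG₁ hi) k (hGG₁ hk)).1 hik
    refine Relation.ReflTransGen.mono ?_ _ _ h1
    intro a b hab
    exact ⟨y (a, b), Finset.mem_image.2 ⟨(a, b), (hPP (a, b)).2 hab, rfl⟩⟩
  · intro P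
    rcases (D.mem P).eq_empty_or_nonempty with h1 | ⟨i, hi⟩
    · rw [h1]
      simp
    · obtain ⟨hi1, hi2⟩ := Finset.mem_filter.1 hi
      refine le_trans (Finset.card_le_card ?_) (Finset.mem_filter.1 hi1).2
      intro k hk
      obtain ⟨hk1, hk2⟩ := Finset.mem_filter.1 hk
      exact Finset.mem_filter.2 ⟨hGG₁ hk1, hk2.trans hi2.symm⟩
  · have hsym : ∀ i j, lk ℓ Z i j = lk ℓ Z j i := by
      intro i j
      unfold lk
      rw [Sym2.eq_swap]
    -- the key step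
    have key : ∀ (a : ℕ) (x z i' j' : Fin q), 2 ≤ a → a ∈ Finset.range (n ^ 2 + 2) → x ∈ G →
        z ∈ G → i' ∈ G → j' ∈ G → lk ℓ Z x z = a → lk ℓ Z i' j' = a → cls x ≠ cls i' →
        cls x ≠ cls j' → a ∈ (Finset.range (n ^ 2 + 2)).filter (fun a => 2 ≤ a ∧
          (∃ h ∈ F, lk ℓ Z x h = a) ∧ ∃ j ∈ F, ∃ h ∈ F, j ≠ x ∧ h ≠ x ∧ lk ℓ Z j h = a ∧
            ¬ Str ℓ Z F K x j ∧ ¬ Str ℓ Z F K x h) := by
      intro a x z i' j' h2 har hx hz hi' hj' h3 h4 h5 h6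
      have hstr : ∀ w ∈ G, cls x ≠ cls w → ¬ Str ℓ Z F K x w := by
        intro w hw h7 h8
        exact h7 ((hcls x (hGG₁ hx) w (hGG₁ hw)).2
          (Relation.ReflTransGen.single ⟨hGG₁ hx, hGG₁ hw, h8⟩))
      refine Finset.mem_filter.2 ⟨har, h2, ⟨z, hG₁F (hGG₁ hz), h3⟩, i', hG₁F (hGG₁ hi'), j',
        hG₁F (hGG₁ hj'), ?_, ?_, h4, hstr i' hi' h5, hstr j' hj' h6⟩
      · rintro rfl
        exact h5 rfl
      · rintro rfl
        exact h6 rfl
    have h1 : (Finset.range (n ^ 2 + 2)).filter (fun a => 2 ≤ a ∧ BadLab ℓ Z G cls a) ⊆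
        G.biUnion fun x => (Finset.range (n ^ 2 + 2)).filter (fun a => 2 ≤ a ∧
          (∃ h ∈ F, lk ℓ Z x h = a) ∧ ∃ j ∈ F, ∃ h ∈ F, j ≠ x ∧ h ≠ x ∧ lk ℓ Z j h = a ∧
            ¬ Str ℓ Z F K x j ∧ ¬ Str ℓ Z F K x h) := by
      intro a ha
      obtain ⟨har, h2, i, hi, j, hj, i', hi', j', hj', h3, h4, h5, h6, h7, h8⟩ :=
        Finset.mem_filter.1 ha
      rw [Finset.mem_biUnion]
      by_cases hA : cls i ≠ cls i' ∧ cls i ≠ cls j'
      · exact ⟨i, hi, key a i j i' j' h2 har hi hj hi' hj' h3 h4 hA.1 hA.2⟩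
      · by_cases hB : cls j ≠ cls i' ∧ cls j ≠ cls j'
        · exact ⟨j, hj, key a j i i' j' h2 har hj hi hi' hj' ((hsym j i).trans h3) h4 hB.1 hB.2⟩
        · exfalso
          rw [not_and_or, not_ne_iff, not_ne_iff] at hA hB
          rcases hA with hA | hA <;> rcases hB with hB | hB
          · exact h5 (hA.trans hB.symm)
          · exact h7 ⟨hA, hB⟩
          · exact h8 ⟨hA, hB⟩
          · exact h5 (hA.trans hB.symm)
    calc _ ≤ _ := Finset.card_le_card h1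
      _ ≤ ∑ x ∈ G, _ := Finset.card_biUnion_le
      _ ≤ ∑ x ∈ G, 2 * μ * K := by
          refine Finset.sum_le_sum fun x hx => ?_
          exact bad_at hℓ (by omega) (hG₁F (hGG₁ hx)) (hG₁M x (hGG₁ hx))
      _ = G.card * (2 * μ * K) := by rw [Finset.sum_const, smul_eq_mul]
      _ ≤ q * (2 * μ * K) := by
          refine Nat.mul_le_mul_right _ ?_
          simpa using Finset.card_le_univ G
      _ = 2 * μ * K * q := by ring

end Pool.Agent.Helper65.CG
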